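import Mathlib
import Pool.Agent.V1185.Persist
import Pool.Agent.V1185.SumField
import Pool.Agent.V1185.JumpTools
import Pool.Agent.V1185.Floq

/-!
# MP_e1010f_an: the rigid synchrony conjecture

Every rigid synchrony pattern of a hyperbolic periodic orbit of an admissible `C¹` vector field on
a network is balanced.
-/

set_option linter.unusedSectionVars false

namespace Pool.Agent.Results.MP_e1010f_an.RigidSynchrony

open Set Filter Topology MeasureTheory
open Pool.Agent.V1185.Persist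
open Pool.Agent.V1185 Pool.Agent.V1185.JumpTools

/-! ### Definitions -/

/-- A network: finitely many nodes and arrows, each arrow with a head and a tail, and types of
nodes and arrows such that arrows of equal type have heads of equal type and tails of equal
type. -/
structure Network where
  /-- the nodes -/
  Node : Type
  /-- the arrows -/
  Arrow : Type
  /-- the node types -/
  NodeType : Type
  /-- the arrow types -/
  ArrowType : Type
  [fintypeNode : Fintype Node]
  [fintypeArrow : Fintype Arrow]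
  /-- the head of an arrow -/
  head : Arrow → Node
  /-- the tail of an arrow -/
  tail : Arrow → Node
  /-- the type of a node -/
  nty : Node → NodeType
  /-- the type of an arrow -/
  aty : Arrow → ArrowType
  compat : ∀ a b, aty a = aty b → nty (head a) = nty (head b) ∧ nty (tail a) = nty (tail b)

attribute [instance] Network.fintypeNode Network.fintypeArrow

variable (N : Network)

/-- The input set `I(c)`: the arrows with head `c`. -/
def Inp (c : N.Node) : Type := {e : N.Arrow // N.head e = c}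

instance (c : N.Node) : Finite (Inp N c) :=
  inferInstanceAs (Finite {e : N.Arrow // N.head e = c})

noncomputable instance (c : N.Node) : Fintype (Inp N c) := Fintype.ofFinite _

/-- Input isomorphisms `I(c) → I(d)`: type-preserving bijections, for nodes of equal type. -/
def InputIso (c d : N.Node) : Type :=
  {β : Inp N c ≃ Inp N d // N.nty c = N.nty d ∧ ∀ e, N.aty (β e).1 = N.aty e.1}

/-- A relation on nodes is balanced: related nodes have input isomorphisms matching related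
tails. -/
def Balanced (r : N.Node → N.Node → Prop) : Prop :=
  ∀ c d, r c d → ∃ β : InputIso N c d, ∀ e : Inp N c, r (N.tail e.1) (N.tail (β.1 e).1)

variable {E : Type} [NormedAddCommGroup E] [NormedSpace ℝ E] [FiniteDimensional ℝ E]
variable (P : N.NodeType → Submodule ℝ E)

/-- The total state space `∏ P_c`, where the state space of a node is the subspace of `E` attached
to its type. -/
def StateSpace : Submodule ℝ (N.Node → E) := Submodule.pi univ fun c => P (N.nty c)

/-- Admissible `C¹` vector fields: `f_c` is a `C¹` function of the state of `c` and of the states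
of the tails of the arrows in `I(c)`, and these functions are related by input isomorphisms. -/
def Admissible (f : StateSpace N P → StateSpace N P) : Prop :=
  ContDiff ℝ 1 f ∧ ∃ F : (c : N.Node) → E × (Inp N c → E) → E,
    (∀ c, ContDiff ℝ 1 (F c)) ∧
    (∀ (c d : N.Node) (β : InputIso N c d) (u : E) (w : Inp N d → E),
      F d (u, w) = F c (u, fun e => w (β.1 e))) ∧
    ∀ (x : StateSpace N P) (c : N.Node), (f x).1 c = F c (x.1 c, fun e => x.1 (N.tail e.1))

/-- The synchrony pattern of `x`. -/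
def Sync (x : ℝ → StateSpace N P) (c d : N.Node) : Prop := ∀ t, (x t).1 c = (x t).1 d

section Dyn

variable {V : Type} [NormedAddCommGroup V] [NormedSpace ℝ V] [FiniteDimensional ℝ V]

/-- `x` is a non-constant periodic solution of `x' = f(x)` with period `T`. -/
structure PeriodicOrbit (f : V → V) (x : ℝ → V) (T : ℝ) : Prop where
  pos : 0 < T
  ode : ∀ t, HasDerivAt x (f (x t)) t
  per : ∀ t, x (t + T) = x t
  nonconst : ∃ t, x t ≠ x 0

/-- Hyperbolicity: the monodromy of the variational equation over one period has `1` as a simple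
eigenvalue and no other (complex) eigenvalue on the unit circle. -/
def Hyperbolic (f : V → V) (x : ℝ → V) (T : ℝ) : Prop :=
  ∃ M : V →ₗ[ℝ] V,
    (∀ v, ∃ ξ : ℝ → V, ξ 0 = v ∧ (∀ t, HasDerivAt ξ (fderiv ℝ f (x t) (ξ t)) t) ∧ ξ T = M v) ∧
    (M.charpoly.map (algebraMap ℝ ℂ)).rootMultiplicity 1 = 1 ∧
    ∀ μ : ℂ, (M.charpoly.map (algebraMap ℝ ℂ)).IsRoot μ → ‖μ‖ = 1 → μ = 1

/-- `f'` is within `ε` of `f` in values and first derivatives, everywhere. -/
def CloseField (ε : ℝ) (f f' : V → V) : Prop :=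
  ∀ z, ‖f' z - f z‖ < ε ∧ ‖fderiv ℝ f' z - fderiv ℝ f z‖ < ε

/-- The orbit `x'` with period `T'` is within `ε` of the orbit `x` with period `T`. -/
def CloseOrbit (ε : ℝ) (x : ℝ → V) (T : ℝ) (x' : ℝ → V) (T' : ℝ) : Prop :=
  |T' - T| < ε ∧ ∀ t ∈ Icc 0 T, ‖x' t - x t‖ < ε

end Dyn

/-- Rigidity of the synchrony pattern: for every admissible `f'` sufficiently `C¹`-close to `f`,
the periodic orbits of `f'` near `x` (unique up to a time shift when `x` is hyperbolic) have the
same synchronies. -/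
def Rigid (f : StateSpace N P → StateSpace N P) (x : ℝ → StateSpace N P) (T : ℝ) : Prop :=
  ∃ ε : ℝ, 0 < ε ∧ ∀ f' : StateSpace N P → StateSpace N P, Admissible N P f' →
    CloseField ε f f' → ∀ (x' : ℝ → StateSpace N P) (T' : ℝ), PeriodicOrbit f' x' T' →
      CloseOrbit ε x T x' T' → ∀ c d, Sync N P x c d → Sync N P x' c d

/-! ### Input isomorphisms -/

variable {N P}

/-- Identity. -/
def InputIso.refl (c : N.Node) : InputIso N c c := ⟨Equiv.refl _, rfl, fun _ => rfl⟩

/-- Inverse. -/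
def InputIso.symm {c d : N.Node} (β : InputIso N c d) : InputIso N d c :=
  ⟨β.1.symm, β.2.1.symm, fun e => by
    have := β.2.2 (β.1.symm e)
    rw [Equiv.apply_symm_apply] at this
    exact this.symm⟩

/-- Composition. -/
def InputIso.trans {a b c : N.Node} (β : InputIso N a b) (γ : InputIso N b c) : InputIso N a c :=
  ⟨β.1.trans γ.1, β.2.1.trans γ.2.1, fun e => by
    rw [Equiv.trans_apply, γ.2.2, β.2.2]⟩

instance (c d : N.Node) : Finite (InputIso N c d) :=
  inferInstanceAs (Finite {β : Inp N c ≃ Inp N d //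
    N.nty c = N.nty d ∧ ∀ e, N.aty (β e).1 = N.aty e.1})

noncomputable instance (c d : N.Node) : Fintype (InputIso N c d) := Fintype.ofFinite _

/-- Reindexing. -/
def InputIso.compEquiv (c : N.Node) {a b : N.Node} (γ : InputIso N a b) :
    InputIso N c a ≃ InputIso N c b where
  toFun β := β.trans γ
  invFun β := β.trans γ.symm
  left_inv β := by
    apply Subtype.ext; ext e; simp [InputIso.trans, InputIso.symm]
  right_inv β := by
    apply Subtype.ext; ext e; simp [InputIso.trans, InputIso.symm]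

/-- Pulling back an input point. -/
def pull {c a : N.Node} (β : InputIso N c a) (q : E × (Inp N a → E)) : E × (Inp N c → E) :=
  (q.1, fun e => q.2 (β.1 e))

/-- The input point of node `a`. -/
def inp (a : N.Node) (x : StateSpace N P) : E × (Inp N a → E) :=
  (x.1 a, fun e => x.1 (N.tail e.1))

lemma mem_state (x : StateSpace N P) (c : N.Node) : x.1 c ∈ P (N.nty c) :=
  (Submodule.mem_pi.mp x.2) c (mem_univ _)

lemma mem_mk {x : N.Node → E} (h : ∀ c, x c ∈ P (N.nty c)) : x ∈ StateSpace N P :=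
  Submodule.mem_pi.mpr fun c _ => h c

lemma continuous_coord (c : N.Node) : Continuous fun x : StateSpace N P => x.1 c :=
  (continuous_apply c).comp continuous_subtype_val

lemma continuous_inp (a : N.Node) : Continuous (inp (P := P) a) := by
  unfold inp
  exact (continuous_coord a).prodMk (continuous_pi fun e => continuous_coord _)

lemma continuous_pull {c a : N.Node} (β : InputIso N c a) :
    Continuous (pull (E := E) β) := by
  unfold pull
  fun_prop

/-! ### Bump perturbations -/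

/-- The input point as a continuous linear map. -/
noncomputable def inpL (a : N.Node) : StateSpace N P →L[ℝ] E × (Inp N a → E) :=
  (((ContinuousLinearMap.proj a).comp (StateSpace N P).subtypeL).prod
    (ContinuousLinearMap.pi fun e : Inp N a =>
      (ContinuousLinearMap.proj (N.tail e.1)).comp (StateSpace N P).subtypeL))

lemma inpL_apply (a : N.Node) (x : StateSpace N P) : inpL a x = inp a x := rfl

/-- Pulling back as a continuous linear map. -/
noncomputable def pullL {c a : N.Node} (β : InputIso N c a) :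
    E × (Inp N a → E) →L[ℝ] E × (Inp N c → E) :=
  (ContinuousLinearMap.fst ℝ E (Inp N a → E)).prod
    (ContinuousLinearMap.pi fun e : Inp N c =>
      (ContinuousLinearMap.proj (β.1 e)).comp (ContinuousLinearMap.snd ℝ E (Inp N a → E)))

lemma pullL_apply {c a : N.Node} (β : InputIso N c a) (q : E × (Inp N a → E)) :
    pullL β q = pull β q := rfl

lemma norm_le_norm_pull {c a : N.Node} (β : InputIso N c a) (q : E × (Inp N a → E)) :
    ‖q‖ ≤ ‖pull β q‖ := by
  have h1 : ‖q.1‖ ≤ ‖pull β q‖ := norm_fst_le (pull β q)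
  have h2 : ‖q.2‖ ≤ ‖pull β q‖ := by
    refine (pi_norm_le_iff_of_nonneg (norm_nonneg _)).mpr fun e => ?_
    have h3 : q.2 e = (pull β q).2 (β.1.symm e) := by simp [pull]
    rw [h3]
    exact (norm_le_pi_norm _ _).trans (norm_snd_le _)
  exact max_le h1 h2

/-- A vector at node `a`, if `a` has the same type as `c`. -/
noncomputable def sing (c a : N.Node) (v : E) (hv : v ∈ P (N.nty c)) : StateSpace N P := by
  classical
  exact if h : N.nty a = N.nty c then ⟨Pi.single a v, by
    rw [StateSpace, Submodule.mem_pi]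
    intro b _
    by_cases hb : b = a
    · subst hb
      rw [Pi.single_eq_same, h]
      exact hv
    · rw [Pi.single_eq_of_ne hb]
      exact (P _).zero_mem⟩ else 0

lemma sing_same {c a : N.Node} {v : E} (hv : v ∈ P (N.nty c)) (h : N.nty a = N.nty c) :
    (sing c a v hv : StateSpace N P).1 a = v := by
  classical
  simp [sing, h]

lemma sing_ne {c a b : N.Node} {v : E} (hv : v ∈ P (N.nty c)) (h : b ≠ a) :
    (sing c a v hv : StateSpace N P).1 b = 0 := by
  classical
  unfold sing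
  split_ifs with h1
  · exact Pi.single_eq_of_ne h _
  · rfl

lemma coord_sum (t : N.Node → ℝ) (s : N.Node → StateSpace N P) (a : N.Node) :
    (∑ b, t b • s b).1 a = ∑ b, t b • (s b).1 a := by
  rw [AddSubmonoidClass.coe_finsetSum, Finset.sum_apply]
  rfl

/-- The bump perturbation at an input point. -/
lemma exists_bumpField (c : N.Node) (p : E × (Inp N c → E)) {v : E} (hv : v ∈ P (N.nty c))
    {δ : ℝ} (hδ : 0 < δ) :
    ∃ (g : StateSpace N P → StateSpace N P) (θ : N.Node → StateSpace N P → ℝ),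
      Admissible N P g ∧ (∃ B : ℝ, ∀ z, ‖g z‖ ≤ B ∧ ‖fderiv ℝ g z‖ ≤ B) ∧
      (∀ x a, (g x).1 a = θ a x • v) ∧ (∀ a x, 0 ≤ θ a x ∧ θ a x ≤ 1) ∧
      (∀ a, Continuous (θ a)) ∧
      (∀ a x, (∃ β : InputIso N c a, pull β (inp a x) = p) → θ a x = 1) ∧
      (∀ a x, (∀ β : InputIso N c a, δ ≤ ‖pull β (inp a x) - p‖) → θ a x = 0) := by
  obtain ⟨b, hb, hb01, hbp, hb0⟩ := SumField.exists_bump p hδ
  have hsb := fun a : N.Node => SumField.symm_bump (δ := δ) p b hb hb01 hb0
    (fun β : InputIso N c a => pullL (E := E) β) (fun β q => norm_le_norm_pull β q)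
  choose hΘ1 hΘ01 B hB0 hB using hsb
  have hempty : ∀ a q, N.nty a ≠ N.nty c →
      1 - ∏ β : InputIso N c a, (1 - b (pullL (E := E) β q)) = 0 := by
    intro a q h
    have : IsEmpty (InputIso N c a) := ⟨fun β => h β.2.1.symm⟩
    simp
  obtain ⟨hg1, B', hB'⟩ := SumField.sum_field
    (fun a (q : E × (Inp N a → E)) => 1 - ∏ β : InputIso N c a, (1 - b (pullL (E := E) β q)))
    (fun a => inpL (P := P) a) (fun a => sing c a v hv) hΘ1 B hB0 hB
    (fun a q => by rw [Real.norm_of_nonneg (hΘ01 a q).1]; exact (hΘ01 a q).2)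
  have hcoord : ∀ (x : StateSpace N P) (a : N.Node),
      (∑ d, (1 - ∏ β : InputIso N c d, (1 - b (pullL (E := E) β (inpL d x)))) •
        (sing c d v hv : StateSpace N P)).1 a =
      (1 - ∏ β : InputIso N c a, (1 - b (pullL (E := E) β (inpL a x)))) • v := by
    intro x a
    rw [coord_sum, Finset.sum_eq_single a]
    · by_cases h : N.nty a = N.nty c
      · rw [sing_same hv h]
      · rw [hempty a _ h, zero_smul, zero_smul]
    · intro d _ hda
      rw [sing_ne hv hda.symm, smul_zero]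
    · intro h; exact absurd (Finset.mem_univ _) h
  refine ⟨_, fun a x => 1 - ∏ β : InputIso N c a, (1 - b (pullL (E := E) β (inpL a x))),
    ⟨hg1, fun a q => (1 - ∏ β : InputIso N c a, (1 - b (pullL (E := E) β q))) • v, ?_, ?_, ?_⟩,
    ⟨B', hB'⟩, hcoord, fun a x => hΘ01 a _, fun a => (hΘ1 a).continuous.comp (inpL a).continuous,
    ?_, ?_⟩
  · exact fun a => (hΘ1 a).smul contDiff_const
  · intro a d β u w
    have : ∏ γ : InputIso N c d, (1 - b (pullL (E := E) γ (u, w))) =
        ∏ γ : InputIso N c a, (1 - b (pullL (E := E) γ (u, fun e => w (β.1 e)))) :=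
      (Fintype.prod_equiv (InputIso.compEquiv c β) _ _ fun γ => rfl).symm
    simp only [this]
  · intro x a
    exact hcoord x a
  · rintro a x ⟨β, hβ⟩
    have h1 : b (pullL β (inpL a x)) = 1 := by
      rw [pullL_apply, inpL_apply, hβ, hbp]
    simp only
    rw [Finset.prod_eq_zero (Finset.mem_univ β) (by rw [h1, sub_self]), sub_zero]
  · intro a x h
    have h1 : ∀ β : InputIso N c a, b (pullL β (inpL a x)) = 0 := fun β => hb0 _ (h β)
    simp [h1]

/-! ### The core situation: locally constant coincidences -/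

/-- `f`, `y` is such that the coincidence relation `R` and the set `Z` of resting nodes are
locally constant under small admissible perturbations. -/
structure Core (f : StateSpace N P → StateSpace N P) (y : ℝ → StateSpace N P) (T s₀ ρ₀ C : ℝ)
    (R : N.Node → N.Node → Prop) (Z : N.Node → Prop) : Prop where
  adm : Admissible N P f
  orb : Orb f y T
  Cpos : 0 < C
  ρpos : 0 < ρ₀
  hR : ∀ s, |s - s₀| < ρ₀ → ∀ a b, (y s).1 a = (y s).1 b ↔ R a b
  hZ : ∀ s, |s - s₀| < ρ₀ → ∀ a, (f (y s)).1 a = 0 ↔ Z a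
  pert : ∀ g : StateSpace N P → StateSpace N P, Admissible N P g →
    (∃ B : ℝ, ∀ z, ‖g z‖ ≤ B ∧ ‖fderiv ℝ g z‖ ≤ B) → ∀ ρ : ℝ, 0 < ρ →
    ∃ l : ℝ, l ≠ 0 ∧ ∃ (y' : ℝ → StateSpace N P) (T' : ℝ), Orb (fun z => f z + l • g z) y' T' ∧
      (∀ s, ‖y' s - y s‖ ≤ C * |l| * ∫ r in (0 : ℝ)..1, ‖g (y r)‖) ∧
      (∀ s, ‖y' s - y s‖ < ρ) ∧ ∀ s, |s - s₀| < ρ₀ →
        (∀ a b, (y' s).1 a = (y' s).1 b ↔ R a b) ∧
        (∀ a, (f (y' s) + l • g (y' s)).1 a = 0 ↔ Z a)

/-- The coordinate as a continuous linear map. -/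
noncomputable def coordL (a : N.Node) : StateSpace N P →L[ℝ] E :=
  (ContinuousLinearMap.proj a).comp (StateSpace N P).subtypeL

lemma coordL_apply (a : N.Node) (x : StateSpace N P) : coordL a x = x.1 a := rfl

lemma norm_coordL_le (a : N.Node) : ‖coordL (P := P) a‖ ≤ 1 := by
  refine ContinuousLinearMap.opNorm_le_bound _ zero_le_one fun x => ?_
  rw [one_mul, coordL_apply]
  exact norm_le_pi_norm x.1 a

section CoreSec

variable {f : StateSpace N P → StateSpace N P} {y : ℝ → StateSpace N P} {T s₀ ρ₀ C : ℝ}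
  {R : N.Node → N.Node → Prop} {Z : N.Node → Prop}

/-- Derivatives of synchronous coordinates agree. -/
lemma deriv_eq {f : StateSpace N P → StateSpace N P} {y : ℝ → StateSpace N P} {T : ℝ}
    (h : Orb f y T) {s : ℝ} {a b : N.Node} (hs : ∀ᶠ r in 𝓝 s, (y r).1 a = (y r).1 b) :
    (f (y s)).1 a = (f (y s)).1 b := by
  have h1 : ∀ c : N.Node, HasDerivAt (fun r => (y r).1 c) (T • (f (y s)).1 c) s := fun c => by
    have := (coordL (P := P) c).hasFDerivAt.comp_hasDerivAt s (h.ode s)
    rw [map_smul] at this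
    exact this
  have h2 := (h1 b).congr_of_eventuallyEq (hs.mono fun r hr => hr)
  have h3 := (h1 a).unique h2
  exact smul_right_injective _ h.pos.ne' h3

lemma Core.exists_ineq (H : Core f y T s₀ ρ₀ C R Z) : ∃ C' : ℝ, 0 < C' ∧
    ∀ g : StateSpace N P → StateSpace N P, Admissible N P g →
    (∃ B : ℝ, ∀ z, ‖g z‖ ≤ B ∧ ‖fderiv ℝ g z‖ ≤ B) → ∀ s, |s - s₀| < ρ₀ →
      (∀ a, Z a → ‖(g (y s)).1 a‖ ≤ C' * ∫ r in (0 : ℝ)..1, ‖g (y r)‖) ∧
      (∀ a b, R a b → ‖(g (y s)).1 a - (g (y s)).1 b‖ ≤ C' * ∫ r in (0 : ℝ)..1, ‖g (y r)‖) := by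
  obtain ⟨M, hM0, hM⟩ := exists_norm_bound H.orb.continuous H.orb.per
  obtain ⟨L, hL0, hL⟩ := exists_lip H.adm.1 (M + 1)
  refine ⟨2 * (L * C), by have := H.Cpos; positivity, fun g hg hgB s hs => ?_⟩
  set I := ∫ r in (0 : ℝ)..1, ‖g (y r)‖ with hI
  have hI0 : 0 ≤ I := intervalIntegral.integral_nonneg zero_le_one fun _ _ => norm_nonneg _
  have hlip : ∀ z, ‖z - y s‖ ≤ 1 → ‖f z - f (y s)‖ ≤ L * ‖z - y s‖ := fun z hz => by
    refine hL z (y s) ?_ (by linarith [hM s])
    have := norm_sub_norm_le z (y s)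
    linarith [hM s]
  have hLC : 0 ≤ L * (C * I) := by have := H.Cpos; positivity
  constructor
  · intro a ha
    have h := jump_ineq (ℓ := coordL (P := P) a) (C := C) (I := I) hL0.le hlip hg.1.continuous
      ((H.hZ s hs a).mpr ha) (fun ρ hρ => by
        obtain ⟨l, hl, y', T', ho, h1, h2, h3⟩ := H.pert g hg hgB ρ hρ
        exact ⟨l, hl, y' s, h1 s, h2 s, ((h3 s hs).2 a).mpr ha⟩)
    refine h.trans ?_
    calc ‖coordL (P := P) a‖ * (L * (C * I)) ≤ 1 * (L * (C * I)) :=
          mul_le_mul_of_nonneg_right (norm_coordL_le a) hLC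
      _ ≤ 2 * (L * C) * I := by linarith
  · intro a b hab
    have hn : ‖coordL (P := P) a - coordL (P := P) b‖ ≤ 2 := by
      refine (norm_sub_le (coordL (P := P) a) (coordL (P := P) b)).trans ?_
      linarith [norm_coordL_le (P := P) a, norm_coordL_le (P := P) b]
    have hnear : ∀ᶠ r in 𝓝 s, |r - s₀| < ρ₀ := by
      have : Continuous fun r : ℝ => |r - s₀| := by fun_prop
      exact this.continuousAt.eventually (gt_mem_nhds hs)
    have h := jump_ineq (ℓ := coordL (P := P) a - coordL (P := P) b) (C := C) (I := I) hL0.le hlip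
      hg.1.continuous (by
        rw [sub_apply, coordL_apply, coordL_apply, sub_eq_zero]
        exact deriv_eq H.orb (hnear.mono fun r hr => (H.hR r hr a b).mpr hab)) (fun ρ hρ => by
        obtain ⟨l, hl, y', T', ho, h1, h2, h3⟩ := H.pert g hg hgB ρ hρ
        refine ⟨l, hl, y' s, h1 s, h2 s, ?_⟩
        rw [sub_apply, coordL_apply, coordL_apply, sub_eq_zero]
        exact deriv_eq ho (hnear.mono fun r hr => ((h3 r hr).1 a b).mpr hab))
    refine h.trans ?_
    calc ‖coordL (P := P) a - coordL (P := P) b‖ * (L * (C * I)) ≤ 2 * (L * (C * I)) :=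
          mul_le_mul_of_nonneg_right hn hLC
      _ = 2 * (L * C) * I := by ring

/-- Good times: the input point of `c` at time `s` is met only during a null set of times. -/
def Good (y : ℝ → StateSpace N P) (c : N.Node) (s : ℝ) : Prop :=
  ∀ᵐ r ∂(volume.restrict (Ioc (0 : ℝ) 1)), ∀ (a : N.Node) (β : InputIso N c a),
    pull β (inp a (y r)) ≠ inp c (y s)

lemma Core.exists_good (H : Core f y T s₀ ρ₀ C R Z) {c b : N.Node}
    (hb : b = c ∨ ∃ e : Inp N c, N.tail e.1 = b) (hZb : ¬ Z b) :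
    ∃ s, |s - s₀| < ρ₀ ∧ Good y c s := by
  have hyc := H.orb.continuous
  have hyb : ∀ s, HasDerivAt (fun s => (y s).1 b) (T • (f (y s)).1 b) s := fun s => by
    have := (coordL (P := P) b).hasFDerivAt.comp_hasDerivAt s (H.orb.ode s)
    rw [map_smul] at this
    exact this
  have hdc : Continuous fun s => T • (f (y s)).1 b :=
    ((continuous_coord b).comp (H.adm.1.continuous.comp hyc)).const_smul T
  have h0 : T • (f (y s₀)).1 b ≠ 0 := by
    refine smul_ne_zero H.orb.pos.ne' fun h => hZb ?_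
    exact (H.hZ s₀ (by simpa using H.ρpos) b).mp h
  obtain ⟨ρ, hρ, hinj⟩ := exists_injOn hyb hdc h0
  set J := Ioo (s₀ - min ρ ρ₀) (s₀ + min ρ ρ₀) with hJ
  have hm : 0 < min ρ ρ₀ := lt_min hρ H.ρpos
  have hJinj : InjOn (fun s => inp c (y s)) J := by
    intro s hs s' hs' h
    refine hinj ?_ ?_ ?_
    · exact ⟨by linarith [hs.1, min_le_left ρ ρ₀], by linarith [hs.2, min_le_left ρ ρ₀]⟩
    · exact ⟨by linarith [hs'.1, min_le_left ρ ρ₀], by linarith [hs'.2, min_le_left ρ ρ₀]⟩
    · rcases hb with rfl | ⟨e, rfl⟩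
      · exact congrArg Prod.fst h
      · exact congrFun (congrArg Prod.snd h) e
  have hae : ∀ᵐ s ∂(volume.restrict J), ∀ᵐ r ∂(volume.restrict (Ioc (0 : ℝ) 1)),
      ∀ (a : N.Node) (β : InputIso N c a), pull β (inp a (y r)) ≠ inp c (y s) := by
    have h1 : ∀ (a : N.Node) (β : InputIso N c a), ∀ᵐ s ∂(volume.restrict J),
        ∀ᵐ r ∂(volume.restrict (Ioc (0 : ℝ) 1)), pull β (inp a (y r)) ≠ inp c (y s) :=
      fun a β => ae_ae_ne ((continuous_pull β).comp ((continuous_inp a).comp hyc))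
        ((continuous_inp c).comp hyc) hJinj
    have h2 : ∀ᵐ s ∂(volume.restrict J), ∀ (a : N.Node) (β : InputIso N c a),
        ∀ᵐ r ∂(volume.restrict (Ioc (0 : ℝ) 1)), pull β (inp a (y r)) ≠ inp c (y s) :=
      ae_all_iff.mpr fun a => ae_all_iff.mpr fun β => h1 a β
    filter_upwards [h2] with s hs
    exact ae_all_iff.mpr fun a => ae_all_iff.mpr fun β => hs a β
  have hJpos : (volume.restrict J) univ ≠ 0 := by
    rw [Measure.restrict_apply_univ, hJ, Real.volume_Ioo]
    simp only [ne_eq, ENNReal.ofReal_eq_zero, not_le]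
    linarith
  have hne : (ae (volume.restrict J)).NeBot := by
    rw [ae_neBot]
    intro h
    rw [h] at hJpos
    simp at hJpos
  have hmem : ∀ᵐ s ∂(volume.restrict J), s ∈ J := ae_restrict_mem measurableSet_Ioo
  obtain ⟨s, hs1, hs2⟩ := (hae.and hmem).exists
  refine ⟨s, ?_, hs1⟩
  rw [abs_lt]
  constructor <;> linarith [hs2.1, hs2.2, min_le_right ρ ρ₀]

lemma Core.exists_test (H : Core f y T s₀ ρ₀ C R Z) {c : N.Node} {s : ℝ} (hgood : Good y c s)
    {v : E} (hv : v ∈ P (N.nty c)) {ε δ : ℝ} (hε : 0 < ε) (hδ : 0 < δ) :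
    ∃ g : StateSpace N P → StateSpace N P, Admissible N P g ∧
      (∃ B : ℝ, ∀ z, ‖g z‖ ≤ B ∧ ‖fderiv ℝ g z‖ ≤ B) ∧
      (∀ x a, (∃ β : InputIso N c a, pull β (inp a x) = inp c (y s)) → (g x).1 a = v) ∧
      (∀ x a, (∀ β : InputIso N c a, δ ≤ ‖pull β (inp a x) - inp c (y s)‖) → (g x).1 a = 0) ∧
      ∫ r in (0 : ℝ)..1, ‖g (y r)‖ < ε := by
  have hδn : ∀ n : ℕ, 0 < δ / ((n : ℝ) + 1) := fun n => by positivity
  choose g θ hg1 hg2 hg3 hg4 hg5 hg6 hg7 using fun n : ℕ =>
    exists_bumpField (P := P) c (inp c (y s)) hv (hδn n)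
  have hsmall := exists_small_integral (h := fun n r => ‖g n (y r)‖) (B := ‖v‖)
    (fun n => ((hg1 n).1.continuous.comp H.orb.continuous).norm) (fun n r => by
      rw [norm_norm]
      refine (pi_norm_le_iff_of_nonneg (norm_nonneg _)).mpr fun a => ?_
      change ‖(g n (y r)).1 a‖ ≤ ‖v‖
      rw [hg3, norm_smul, Real.norm_of_nonneg (hg4 n a _).1]
      exact mul_le_of_le_one_left (norm_nonneg _) (hg4 n a _).2) (by
      filter_upwards [hgood] with r hr
      have h1 : ∀ (a : N.Node) (β : InputIso N c a), ∀ᶠ n : ℕ in atTop,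
          δ / ((n : ℝ) + 1) ≤ ‖pull β (inp a (y r)) - inp c (y s)‖ := by
        intro a β
        have hpos : 0 < ‖pull β (inp a (y r)) - inp c (y s)‖ :=
          norm_pos_iff.mpr (sub_ne_zero.mpr (hr a β))
        have ht : Tendsto (fun n : ℕ => δ / ((n : ℝ) + 1)) atTop (𝓝 0) :=
          tendsto_const_div_atTop_nhds_zero_nat δ |>.comp (tendsto_add_atTop_nat 1) |>.congr
            fun n => by simp
        exact (ht.eventually (gt_mem_nhds hpos)).mono fun n hn => hn.le
      have h2 : ∀ᶠ n : ℕ in atTop, ∀ (a : N.Node) (β : InputIso N c a),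
          δ / ((n : ℝ) + 1) ≤ ‖pull β (inp a (y r)) - inp c (y s)‖ :=
        eventually_all.mpr fun a => eventually_all.mpr fun β => h1 a β
      filter_upwards [h2] with n hn
      have h3 : g n (y r) = 0 := by
        apply Subtype.ext
        funext a
        rw [hg3, hg7 n a _ (hn a), zero_smul]
        rfl
      rw [h3, norm_zero]) hε
  obtain ⟨n, hn⟩ := hsmall.exists
  refine ⟨g n, hg1 n, hg2 n, fun x a h => ?_, fun x a h => ?_, hn⟩
  · rw [hg3, hg6 n a x h, one_smul]
  · rw [hg3, hg7 n a x (fun β => le_trans ?_ (h β)), zero_smul]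
    rw [div_le_iff₀ (by positivity)]
    have : (0 : ℝ) ≤ n := Nat.cast_nonneg n
    nlinarith

/-- The tails of a resting node are resting. -/
lemma Core.tail_rest (H : Core f y T s₀ ρ₀ C R Z) (hP : ∀ τ, P τ ≠ ⊥) {a : N.Node} (ha : Z a)
    (e : Inp N a) : Z (N.tail e.1) := by
  by_contra hne
  obtain ⟨s, hs, hgood⟩ := H.exists_good (c := a) (Or.inr ⟨e, rfl⟩) hne
  obtain ⟨v, hv, hv0⟩ := (Submodule.ne_bot_iff _).mp (hP (N.nty a))
  obtain ⟨C', hC', hineq⟩ := H.exists_ineq
  obtain ⟨g, hg1, hg2, hg3, hg4, hg5⟩ := H.exists_test hgood hv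
    (ε := ‖v‖ / (2 * C')) (δ := 1) (by have := norm_pos_iff.mpr hv0; positivity) one_pos
  have h1 := (hineq g hg1 hg2 s hs).1 a ha
  rw [hg3 (y s) a ⟨InputIso.refl a, rfl⟩] at h1
  have h2 : C' * ∫ r in (0 : ℝ)..1, ‖g (y r)‖ < C' * (‖v‖ / (2 * C')) :=
    mul_lt_mul_of_pos_left hg5 hC'
  have h3 : C' * (‖v‖ / (2 * C')) = ‖v‖ / 2 := by field_simp
  have h4 := norm_pos_iff.mpr hv0
  linarith

/-- `β` matches the tails of `c` and `d` up to `R`. -/
def Matched (R : N.Node → N.Node → Prop) (c d : N.Node) : Prop :=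
  ∃ β : InputIso N c d, ∀ e : Inp N c, R (N.tail e.1) (N.tail (β.1 e).1)

lemma Core.matched_of_moving (H : Core f y T s₀ ρ₀ C R Z) (hP : ∀ τ, P τ ≠ ⊥) {c d b : N.Node}
    (hcd : R c d) (hb : b = c ∨ ∃ e : Inp N c, N.tail e.1 = b) (hZb : ¬ Z b) : Matched R c d := by
  by_contra hne
  obtain ⟨s, hs, hgood⟩ := H.exists_good hb hZb
  obtain ⟨v, hv, hv0⟩ := (Submodule.ne_bot_iff _).mp (hP (N.nty c))
  obtain ⟨C', hC', hineq⟩ := H.exists_ineq
  -- separation of the input points
  have hsep : ∀ β : InputIso N c d, pull β (inp d (y s)) ≠ inp c (y s) := by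
    intro β h
    refine hne ⟨β, fun e => ?_⟩
    have h1 := congrFun (congrArg Prod.snd h) e
    exact (H.hR s hs _ _).mp h1.symm
  obtain ⟨δ, hδ, hδ'⟩ : ∃ δ : ℝ, 0 < δ ∧ ∀ β : InputIso N c d,
      δ ≤ ‖pull β (inp d (y s)) - inp c (y s)‖ := by
    by_cases hemp : Nonempty (InputIso N c d)
    · obtain ⟨β₀, hβ₀⟩ := Finite.exists_min
        (fun β : InputIso N c d => ‖pull β (inp d (y s)) - inp c (y s)‖)
      exact ⟨_, norm_pos_iff.mpr (sub_ne_zero.mpr (hsep β₀)), hβ₀⟩
    · exact ⟨1, one_pos, fun β => absurd ⟨β⟩ hemp⟩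
  obtain ⟨g, hg1, hg2, hg3, hg4, hg5⟩ := H.exists_test hgood hv
    (ε := ‖v‖ / (2 * C')) (δ := δ) (by have := norm_pos_iff.mpr hv0; positivity) hδ
  have h1 := (hineq g hg1 hg2 s hs).2 c d hcd
  rw [hg3 (y s) c ⟨InputIso.refl c, rfl⟩, hg4 (y s) d hδ', sub_zero] at h1
  have h2 : C' * ∫ r in (0 : ℝ)..1, ‖g (y r)‖ < C' * (‖v‖ / (2 * C')) :=
    mul_lt_mul_of_pos_left hg5 hC'
  have h3 : C' * (‖v‖ / (2 * C')) = ‖v‖ / 2 := by field_simp
  have h4 := norm_pos_iff.mpr hv0
  linarith

lemma Core.R_iff (H : Core f y T s₀ ρ₀ C R Z) (a b : N.Node) :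
    R a b ↔ (y s₀).1 a = (y s₀).1 b :=
  (H.hR s₀ (by simpa using H.ρpos) a b).symm

lemma Core.R_refl (H : Core f y T s₀ ρ₀ C R Z) (a : N.Node) : R a a :=
  (H.R_iff a a).mpr rfl

lemma Core.R_symm (H : Core f y T s₀ ρ₀ C R Z) {a b : N.Node} (h : R a b) : R b a :=
  (H.R_iff b a).mpr ((H.R_iff a b).mp h).symm

lemma Core.R_trans (H : Core f y T s₀ ρ₀ C R Z) {a b c : N.Node} (h : R a b) (h' : R b c) :
    R a c := (H.R_iff a c).mpr (((H.R_iff a b).mp h).trans ((H.R_iff b c).mp h'))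

lemma Core.M_refl (H : Core f y T s₀ ρ₀ C R Z) (a : N.Node) : Matched R a a :=
  ⟨InputIso.refl a, fun _ => H.R_refl _⟩

lemma Core.M_symm (H : Core f y T s₀ ρ₀ C R Z) {a b : N.Node} (h : Matched R a b) :
    Matched R b a := by
  obtain ⟨β, hβ⟩ := h
  refine ⟨β.symm, fun e => ?_⟩
  have := hβ (β.1.symm e)
  rw [Equiv.apply_symm_apply] at this
  exact H.R_symm this

lemma Core.M_trans (H : Core f y T s₀ ρ₀ C R Z) {a b c : N.Node} (h : Matched R a b)
    (h' : Matched R b c) : Matched R a c := by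
  obtain ⟨β, hβ⟩ := h
  obtain ⟨γ, hγ⟩ := h'
  exact ⟨β.trans γ, fun e => H.R_trans (hβ e) (hγ (β.1 e))⟩

open Classical in
/-- Projection onto the coordinates in `Z`. -/
noncomputable def projZ (Z : N.Node → Prop) : StateSpace N P →ₗ[ℝ] StateSpace N P where
  toFun x := ⟨fun a => if Z a then x.1 a else 0, mem_mk fun a => by
    split_ifs
    · exact mem_state x a
    · exact (P _).zero_mem⟩
  map_add' x x' := by
    apply Subtype.ext
    funext a
    change (if Z a then (x.1 a + x'.1 a) else 0) =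
      (if Z a then x.1 a else 0) + (if Z a then x'.1 a else 0)
    split_ifs <;> simp
  map_smul' t x := by
    apply Subtype.ext
    funext a
    change (if Z a then t • x.1 a else 0) = t • (if Z a then x.1 a else 0)
    split_ifs <;> simp

lemma projZ_pos {Z : N.Node → Prop} (x : StateSpace N P) {a : N.Node} (h : Z a) :
    (projZ Z x).1 a = x.1 a := by
  classical
  change (if Z a then x.1 a else 0) = x.1 a
  rw [if_pos h]

lemma projZ_neg {Z : N.Node → Prop} (x : StateSpace N P) {a : N.Node} (h : ¬ Z a) :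
    (projZ Z x).1 a = 0 := by
  classical
  change (if Z a then x.1 a else 0) = 0
  rw [if_neg h]

lemma norm_projZ_le {Z : N.Node → Prop} (x : StateSpace N P) : ‖projZ Z x‖ ≤ ‖x‖ := by
  refine (pi_norm_le_iff_of_nonneg (norm_nonneg _)).mpr fun a => ?_
  change ‖(projZ Z x).1 a‖ ≤ ‖x‖
  by_cases h : Z a
  · rw [projZ_pos x h]
    exact norm_le_pi_norm x.1 a
  · rw [projZ_neg x h, norm_zero]
    exact norm_nonneg _

/-- The synchrony subspace of `R`. -/
def DeltaR (R : N.Node → N.Node → Prop) : Submodule ℝ (StateSpace N P) where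
  carrier := {x | ∀ a b, R a b → x.1 a = x.1 b}
  add_mem' {x x'} hx hx' a b h := by
    change x.1 a + x'.1 a = x.1 b + x'.1 b
    rw [hx a b h, hx' a b h]
  zero_mem' _ _ _ := rfl
  smul_mem' t x hx a b h := by
    change t • x.1 a = t • x.1 b
    rw [hx a b h]

/-- The equivalence of resting nodes with matched inputs. -/
def KK (R : N.Node → N.Node → Prop) (Z : N.Node → Prop) (a b : N.Node) : Prop :=
  Z a ∧ Z b ∧ R a b ∧ Matched R a b

/-- States supported on resting nodes and constant on `KK`-classes. -/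
def DeltaK (R : N.Node → N.Node → Prop) (Z : N.Node → Prop) :
    Submodule ℝ (StateSpace N P) where
  carrier := {x | (∀ a, ¬ Z a → x.1 a = 0) ∧ ∀ a b, KK R Z a b → x.1 a = x.1 b}
  add_mem' {x x'} hx hx' := by
    constructor
    · intro a h
      change x.1 a + x'.1 a = 0
      rw [hx.1 a h, hx'.1 a h, add_zero]
    · intro a b h
      change x.1 a + x'.1 a = x.1 b + x'.1 b
      rw [hx.2 a b h, hx'.2 a b h]
  zero_mem' := ⟨fun _ _ => rfl, fun _ _ _ => rfl⟩
  smul_mem' t x hx := by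
    constructor
    · intro a h
      change t • x.1 a = 0
      rw [hx.1 a h, smul_zero]
    · intro a b h
      change t • x.1 a = t • x.1 b
      rw [hx.2 a b h]

open Classical in
/-- Basic vectors of `DeltaK`. -/
noncomputable def basic (R : N.Node → N.Node → Prop) (Z : N.Node → Prop) (c : N.Node) (v : E)
    (hv : v ∈ P (N.nty c)) : StateSpace N P :=
  ⟨fun a => if KK R Z c a then v else 0, mem_mk fun a => by
    split_ifs with h
    · obtain ⟨β, _⟩ := h.2.2.2
      rw [← β.2.1]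
      exact hv
    · exact (P _).zero_mem⟩

lemma basic_pos {c a : N.Node} {v : E} (hv : v ∈ P (N.nty c)) (h : KK R Z c a) :
    (basic R Z c v hv : StateSpace N P).1 a = v := by
  classical
  change (if KK R Z c a then v else 0) = v
  rw [if_pos h]

lemma basic_neg {c a : N.Node} {v : E} (hv : v ∈ P (N.nty c)) (h : ¬ KK R Z c a) :
    (basic R Z c v hv : StateSpace N P).1 a = 0 := by
  classical
  change (if KK R Z c a then v else 0) = 0
  rw [if_neg h]

lemma Core.K_symm (H : Core f y T s₀ ρ₀ C R Z) {a b : N.Node} (h : KK R Z a b) : KK R Z b a :=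
  ⟨h.2.1, h.1, H.R_symm h.2.2.1, H.M_symm h.2.2.2⟩

lemma Core.K_trans (H : Core f y T s₀ ρ₀ C R Z) {a b c : N.Node} (h : KK R Z a b)
    (h' : KK R Z b c) : KK R Z a c :=
  ⟨h.1, h'.2.1, H.R_trans h.2.2.1 h'.2.2.1, H.M_trans h.2.2.2 h'.2.2.2⟩

lemma Core.K_refl (H : Core f y T s₀ ρ₀ C R Z) {a : N.Node} (h : Z a) : KK R Z a a :=
  ⟨h, h, H.R_refl a, H.M_refl a⟩

lemma Core.basic_mem (H : Core f y T s₀ ρ₀ C R Z) {c : N.Node} {v : E}
    (hv : v ∈ P (N.nty c)) : (basic R Z c v hv : StateSpace N P) ∈ DeltaK R Z := by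
  constructor
  · intro a h
    exact basic_neg hv fun h' => h h'.2.1
  · intro a b h
    by_cases h1 : KK R Z c a
    · rw [basic_pos hv h1, basic_pos hv (H.K_trans h1 h)]
    · rw [basic_neg hv h1, basic_neg hv fun h2 => h1 (H.K_trans h2 (H.K_symm h))]

/-- `DeltaK` is spanned by the basic vectors. -/
lemma Core.DeltaK_le (H : Core f y T s₀ ρ₀ C R Z) {W : Submodule ℝ (StateSpace N P)}
    (hW : ∀ (c : N.Node) (v : E) (hv : v ∈ P (N.nty c)), Z c →
      (basic R Z c v hv : StateSpace N P) ∈ W) : DeltaK R Z ≤ W := by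
  classical
  intro x hx
  let n : N.Node → ℝ := fun a => ((Finset.univ.filter fun b => KK R Z a b).card : ℝ)
  have hn : ∀ a b, KK R Z a b → n a = n b := by
    intro a b h
    simp only [n]
    congr 2
    ext d
    simp only [Finset.mem_filter, Finset.mem_univ, true_and]
    exact ⟨fun h' => H.K_trans (H.K_symm h) h', fun h' => H.K_trans h h'⟩
  have hrep : x = ∑ a ∈ Finset.univ.filter (fun a => Z a),
      (n a)⁻¹ • (basic R Z a (x.1 a) (mem_state x a) : StateSpace N P) := by
    apply Subtype.ext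
    funext b
    rw [AddSubmonoidClass.coe_finsetSum, Finset.sum_apply]
    change x.1 b = ∑ a ∈ Finset.univ.filter (fun a => Z a),
      (n a)⁻¹ • (basic R Z a (x.1 a) (mem_state x a) : StateSpace N P).1 b
    by_cases hb : Z b
    · have h1 : ∀ a ∈ Finset.univ.filter (fun a => Z a),
          (n a)⁻¹ • (basic R Z a (x.1 a) (mem_state x a) : StateSpace N P).1 b =
          if KK R Z b a then (n b)⁻¹ • x.1 b else 0 := by
        intro a _
        by_cases h : KK R Z a b
        · rw [basic_pos _ h, if_pos (H.K_symm h), hn a b h, hx.2 a b h]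
        · rw [basic_neg _ h, if_neg fun h' => h (H.K_symm h'), smul_zero]
      rw [Finset.sum_congr rfl h1, ← Finset.sum_filter, Finset.filter_filter]
      have h2 : (Finset.univ.filter fun a => Z a ∧ KK R Z b a) =
          Finset.univ.filter fun a => KK R Z b a := by
        ext a
        simp only [Finset.mem_filter, Finset.mem_univ, true_and]
        exact ⟨fun h => h.2, fun h => ⟨h.2.1, h⟩⟩
      rw [h2, Finset.sum_const, ← Nat.cast_smul_eq_nsmul ℝ, smul_smul]
      have h3 : n b ≠ 0 := by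
        simp only [n]
        rw [Nat.cast_ne_zero, Finset.card_ne_zero]
        exact ⟨b, by simp [H.K_refl hb]⟩
      have h4 : ((Finset.univ.filter fun a => KK R Z b a).card : ℝ) * (n b)⁻¹ = 1 :=
        mul_inv_cancel₀ h3
      rw [h4, one_smul]
    · rw [hx.1 b hb]
      refine (Finset.sum_eq_zero fun a _ => ?_).symm
      rw [basic_neg _ fun h => hb h.2.1, smul_zero]
  rw [hrep]
  refine W.sum_mem fun a ha => W.smul_mem _ (hW a _ _ ?_)
  simpa using ha

/-- The derivative at resting nodes only sees resting nodes. -/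
lemma Core.fderiv_rest (H : Core f y T s₀ ρ₀ C R Z) (hP : ∀ τ, P τ ≠ ⊥) {ζ : StateSpace N P}
    (hζ : ∀ a, Z a → ζ.1 a = 0) {a : N.Node} (ha : Z a) :
    (fderiv ℝ f (y s₀) ζ).1 a = 0 := by
  obtain ⟨hf, F, hF1, hF2, hF3⟩ := H.adm
  have h1 : HasDerivAt (fun t : ℝ => coordL (P := P) a (f (y s₀ + t • ζ)))
      (coordL (P := P) a (fderiv ℝ f (y s₀) ζ)) 0 := by
    have h2 : HasDerivAt (fun t : ℝ => y s₀ + t • ζ) ζ 0 := by
      have := ((hasDerivAt_id (0 : ℝ)).smul_const ζ).const_add (y s₀)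
      simpa using this
    have h3 : HasFDerivAt f (fderiv ℝ f (y s₀)) (y s₀ + (0 : ℝ) • ζ) := by
      rw [zero_smul, add_zero]
      exact ((hf.differentiable one_ne_zero) (y s₀)).hasFDerivAt
    exact (coordL (P := P) a).hasFDerivAt.comp_hasDerivAt 0 (h3.comp_hasDerivAt 0 h2)
  have h4 : (fun t : ℝ => coordL (P := P) a (f (y s₀ + t • ζ))) =
      fun _ => coordL (P := P) a (f (y s₀)) := by
    funext t
    rw [coordL_apply, coordL_apply, hF3, hF3]
    have e1 : (y s₀ + t • ζ).1 a = (y s₀).1 a := by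
      change (y s₀).1 a + t • ζ.1 a = _
      rw [hζ a ha, smul_zero, add_zero]
    have e2 : ∀ e : Inp N a, (y s₀ + t • ζ).1 (N.tail e.1) = (y s₀).1 (N.tail e.1) := by
      intro e
      change (y s₀).1 (N.tail e.1) + t • ζ.1 (N.tail e.1) = _
      rw [hζ _ (H.tail_rest hP ha e), smul_zero, add_zero]
    rw [e1]
    simp only [e2]
  rw [h4] at h1
  exact h1.unique (hasDerivAt_const _ _) |>.trans rfl

/-- The image of the synchrony subspace under the linearisation contains all basic vectors. -/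
lemma Core.basic_mem_W (H : Core f y T s₀ ρ₀ C R Z) (c : N.Node) (v : E)
    (hv : v ∈ P (N.nty c)) (hc : Z c) :
    (basic R Z c v hv : StateSpace N P) ∈
      Submodule.map ((projZ Z).comp (fderiv ℝ f (y s₀)).toLinearMap) (DeltaR R) := by
  set W := Submodule.map ((projZ Z).comp (fderiv ℝ f (y s₀)).toLinearMap)
    (DeltaR R : Submodule ℝ (StateSpace N P)) with hW
  set z := y s₀ with hz
  have hs0 : |s₀ - s₀| < ρ₀ := by simpa using H.ρpos
  have hclosed : IsClosed (W : Set (StateSpace N P)) := W.closed_of_finiteDimensional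
  rw [← SetLike.mem_coe, ← hclosed.closure_eq, Metric.mem_closure_iff]
  intro ε hε
  -- separation radius
  obtain ⟨δ, hδ, hδsep⟩ : ∃ δ : ℝ, 0 < δ ∧ ∀ (a : N.Node) (β : InputIso N c a),
      pull β (inp a z) ≠ inp c z → δ ≤ ‖pull β (inp a z) - inp c z‖ := by
    have h1 : ∀ᶠ δ : ℝ in 𝓝[>] 0, ∀ (a : N.Node) (β : InputIso N c a),
        pull β (inp a z) ≠ inp c z → δ ≤ ‖pull β (inp a z) - inp c z‖ := by
      refine eventually_all.mpr fun a => eventually_all.mpr fun β => ?_
      by_cases h : pull β (inp a z) = inp c z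
      · exact Eventually.of_forall fun _ h' => absurd h h'
      · have hpos : 0 < ‖pull β (inp a z) - inp c z‖ := norm_pos_iff.mpr (sub_ne_zero.mpr h)
        have h2 : ∀ᶠ δ : ℝ in 𝓝[>] 0, δ < ‖pull β (inp a z) - inp c z‖ :=
          mem_nhdsWithin_of_mem_nhds (Iio_mem_nhds hpos)
        exact h2.mono fun δ hδ _ => hδ.le
    obtain ⟨δ, hδ1, hδ2⟩ := (h1.and self_mem_nhdsWithin).exists
    exact ⟨δ, hδ2, hδ1⟩
  obtain ⟨g, θ, hg1, hg2, hg3, hg4, hg5, hg6, hg7⟩ := exists_bumpField (P := P) c (inp c z) hv hδ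
  have hgz : projZ Z (g z) = (basic R Z c v hv : StateSpace N P) := by
    apply Subtype.ext
    funext a
    by_cases ha : Z a
    · rw [projZ_pos _ ha, hg3]
      by_cases hk : KK R Z c a
      · rw [basic_pos hv hk]
        obtain ⟨β, hβ⟩ := hk.2.2.2
        rw [hg6 a z ⟨β, ?_⟩, one_smul]
        refine Prod.ext ?_ ?_
        · exact ((H.R_iff c a).mp hk.2.2.1).symm
        · funext e
          exact ((H.R_iff _ _).mp (hβ e)).symm
      · rw [basic_neg hv hk, hg7 a z fun β => ?_, zero_smul]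
        refine hδsep a β fun h => hk ⟨hc, ha, ?_, β, fun e => ?_⟩
        · exact (H.R_iff c a).mpr (congrArg Prod.fst h).symm
        · exact (H.R_iff _ _).mpr (congrFun (congrArg Prod.snd h) e).symm
    · rw [projZ_neg _ ha, basic_neg hv fun h => ha h.2.1]
  set I := ∫ r in (0 : ℝ)..1, ‖g (y r)‖ with hI
  have hI0 : 0 ≤ I := intervalIntegral.integral_nonneg zero_le_one fun _ _ => norm_nonneg _
  have hC := H.Cpos
  set ε1 : ℝ := ε / (3 * (C * I + 1)) with hε1
  have hε1p : 0 < ε1 := by positivity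
  have hdiff : HasFDerivAt f (fderiv ℝ f z) z :=
    ((H.adm.1.differentiable one_ne_zero) z).hasFDerivAt
  obtain ⟨ρ1, hρ1, hρ1'⟩ := Metric.eventually_nhds_iff.mp (hdiff.isLittleO.def hε1p)
  obtain ⟨ρ2, hρ2, hρ2'⟩ := Metric.continuous_iff.mp hg1.1.continuous z (ε / 3) (by positivity)
  obtain ⟨l, hl, y', T', ho, h1, h2, h3⟩ := H.pert g hg1 hg2 (min ρ1 ρ2) (by positivity)
  set w := y' s₀ with hw
  have hη : -(l⁻¹ • (w - z)) ∈ (DeltaR R : Submodule ℝ (StateSpace N P)) := by
    refine Submodule.neg_mem _ (Submodule.smul_mem _ _ (Submodule.sub_mem _ ?_ ?_))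
    · intro a b hab
      exact ((h3 s₀ hs0).1 a b).mpr hab
    · intro a b hab
      exact (H.R_iff a b).mp hab
  refine ⟨_, ⟨_, hη, rfl⟩, ?_⟩
  set 𝒜 := fderiv ℝ f z with h𝒜
  set err := f w - f z - 𝒜 (w - z) with herr
  have hwz : dist w z < min ρ1 ρ2 := by rw [dist_eq_norm]; exact h2 s₀
  have herrn : ‖err‖ ≤ ε1 * ‖w - z‖ := hρ1' (hwz.trans_le (min_le_left _ _))
  have hgw : ‖g w - g z‖ < ε / 3 := by
    rw [← dist_eq_norm]
    exact hρ2' w (hwz.trans_le (min_le_right _ _))
  have hfz : projZ Z (f w - f z) = -(l • projZ Z (g w)) := by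
    apply Subtype.ext
    funext a
    by_cases ha : Z a
    · have e1 : (f w).1 a + l • (g w).1 a = 0 := ((h3 s₀ hs0).2 a).mpr ha
      have e2 : (f z).1 a = 0 := (H.hZ s₀ hs0 a).mpr ha
      rw [projZ_pos _ ha]
      change (f w).1 a - (f z).1 a = -(l • (projZ Z (g w)).1 a)
      rw [projZ_pos _ ha, e2, sub_zero]
      exact eq_neg_of_add_eq_zero_left e1
    · rw [projZ_neg _ ha]
      change (0 : E) = -(l • (projZ Z (g w)).1 a)
      rw [projZ_neg _ ha, smul_zero, neg_zero]
  have hcalc : (basic R Z c v hv : StateSpace N P) -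
      ((projZ Z).comp 𝒜.toLinearMap) (-(l⁻¹ • (w - z))) =
      projZ Z (g z - g w) - l⁻¹ • projZ Z err := by
    rw [← hgz]
    have e1 : 𝒜 (w - z) = (f w - f z) - err := by rw [herr]; abel
    have e2 : ((projZ Z).comp 𝒜.toLinearMap) (-(l⁻¹ • (w - z))) =
        -(l⁻¹ • projZ Z (𝒜 (w - z))) := by
      rw [map_neg, map_smul]
      rfl
    rw [e2, e1, map_sub (projZ Z) (f w - f z) err, hfz, map_sub (projZ Z) (g z) (g w), smul_sub,
      smul_neg, smul_smul, inv_mul_cancel₀ hl, one_smul]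
    abel
  rw [dist_eq_norm, hcalc]
  have hb1 : ‖projZ Z (g z - g w)‖ < ε / 3 := by
    refine lt_of_le_of_lt (norm_projZ_le _) ?_
    rwa [norm_sub_rev]
  have hb2 : ‖l⁻¹ • projZ Z err‖ ≤ ε / 3 := by
    rw [norm_smul, norm_inv, Real.norm_eq_abs]
    have hl' : 0 < |l| := abs_pos.mpr hl
    have e3 : ‖projZ Z err‖ ≤ ε1 * (C * |l| * I) :=
      (norm_projZ_le _).trans (herrn.trans (mul_le_mul_of_nonneg_left (h1 s₀) hε1p.le))
    calc |l|⁻¹ * ‖projZ Z err‖ ≤ |l|⁻¹ * (ε1 * (C * |l| * I)) :=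
          mul_le_mul_of_nonneg_left e3 (by positivity)
      _ = ε1 * (C * I) := by field_simp
      _ ≤ ε1 * (C * I + 1) := by nlinarith
      _ = ε / 3 := by rw [hε1]; field_simp
  calc ‖projZ Z (g z - g w) - l⁻¹ • projZ Z err‖ ≤
      ‖projZ Z (g z - g w)‖ + ‖l⁻¹ • projZ Z err‖ := norm_sub_le _ _
    _ < ε := by linarith

/-- Resting synchronous nodes are matched. -/
lemma Core.matched_of_rest (H : Core f y T s₀ ρ₀ C R Z) (hP : ∀ τ, P τ ≠ ⊥) {c d : N.Node}
    (hcd : R c d) (hc : Z c) : Matched R c d := by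
  by_contra hne
  -- `d` is at rest as well
  have hd : Z d := by
    have hnear : ∀ᶠ r in 𝓝 s₀, |r - s₀| < ρ₀ := by
      have : Continuous fun r : ℝ => |r - s₀| := by fun_prop
      exact this.continuousAt.eventually (gt_mem_nhds (by simpa using H.ρpos))
    have h1 := deriv_eq H.orb (hnear.mono fun r hr => (H.hR r hr c d).mpr hcd)
    have hs0 : |s₀ - s₀| < ρ₀ := by simpa using H.ρpos
    rw [← H.hZ s₀ hs0, ← h1]
    exact (H.hZ s₀ hs0 c).mpr hc
  obtain ⟨v, hv, hv0⟩ := (Submodule.ne_bot_iff _).mp (hP (N.nty c))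
  set B := (projZ Z).comp (fderiv ℝ f (y s₀)).toLinearMap with hB
  set D := Submodule.map (projZ Z) (DeltaR R : Submodule ℝ (StateSpace N P)) with hD
  have hW : Submodule.map B (DeltaR R) ≤ Submodule.map B D := by
    rintro _ ⟨η, hη, rfl⟩
    refine ⟨projZ Z η, ⟨η, hη, rfl⟩, ?_⟩
    have h1 : B (η - projZ Z η) = 0 := by
      apply Subtype.ext
      funext a
      by_cases ha : Z a
      · change (projZ Z (fderiv ℝ f (y s₀) (η - projZ Z η))).1 a = 0
        rw [projZ_pos _ ha]
        refine H.fderiv_rest hP (fun b hb => ?_) ha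
        change η.1 b - (projZ Z η).1 b = 0
        rw [projZ_pos _ hb, sub_self]
      · exact projZ_neg _ ha
    rw [map_sub, sub_eq_zero] at h1
    exact h1.symm
  have hDK : D ≤ DeltaK R Z := by
    rintro _ ⟨η, hη, rfl⟩
    refine ⟨fun a ha => projZ_neg _ ha, fun a b hab => ?_⟩
    rw [projZ_pos _ hab.1, projZ_pos _ hab.2.1]
    exact hη a b hab.2.2.1
  have hKW : (DeltaK R Z : Submodule ℝ (StateSpace N P)) ≤ Submodule.map B D :=
    (H.DeltaK_le fun c v hv hc => H.basic_mem_W c v hv hc).trans hW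
  have hfin : Module.finrank ℝ (DeltaK R Z : Submodule ℝ (StateSpace N P)) ≤
      Module.finrank ℝ D :=
    (Submodule.finrank_mono hKW).trans (Submodule.finrank_map_le B D)
  have heq : D = DeltaK R Z := Submodule.eq_of_le_of_finrank_le hDK hfin
  have hmem : (basic R Z c v hv : StateSpace N P) ∈ D := by
    rw [heq]; exact H.basic_mem hv
  obtain ⟨η, hη, hηe⟩ := hmem
  have h1 : η.1 c = v := by
    rw [← projZ_pos η hc, hηe, basic_pos hv (H.K_refl hc)]
  have h2 : η.1 d = 0 := by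
    rw [← projZ_pos η hd, hηe, basic_neg hv fun h => hne h.2.2.2]
  have h3 : η.1 c = η.1 d := hη c d hcd
  rw [h1, h2] at h3
  exact hv0 h3

/-- The coincidence relation is balanced. -/
lemma Core.balanced (H : Core f y T s₀ ρ₀ C R Z) (hP : ∀ τ, P τ ≠ ⊥) : Balanced N R := by
  intro c d hcd
  by_cases hc : Z c
  · exact H.matched_of_rest hP hcd hc
  · exact H.matched_of_moving hP hcd (Or.inl rfl) hc

/-- Coincidences at one time propagate to all times. -/
lemma Core.sync (H : Core f y T s₀ ρ₀ C R Z) (hP : ∀ τ, P τ ≠ ⊥) {a b : N.Node} (hab : R a b)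
    (s : ℝ) : (y s).1 a = (y s).1 b := by
  classical
  have hbal := H.balanced hP
  let st : Setoid N.Node := ⟨R, H.R_refl, H.R_symm, H.R_trans⟩
  let ρ : N.Node → N.Node := fun a => (Quotient.mk st a).out
  have hρ : ∀ a, R a (ρ a) := fun a => by
    have h1 : R (ρ a) a := Quotient.exact (Quotient.out_eq (Quotient.mk st a))
    exact H.R_symm h1
  have hρe : ∀ a b, R a b → ρ a = ρ b := fun a b h => by
    have : Quotient.mk st a = Quotient.mk st b := Quotient.sound h
    simp only [ρ, this]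
  have hty : ∀ a, N.nty (ρ a) = N.nty a := fun a => by
    obtain ⟨β, _⟩ := hbal a (ρ a) (hρ a)
    exact β.2.1.symm
  let Q : StateSpace N P →ₗ[ℝ] StateSpace N P :=
    { toFun := fun x => ⟨fun a => x.1 (ρ a), mem_mk fun a => by
        rw [← hty a]; exact mem_state x (ρ a)⟩
      map_add' := fun _ _ => rfl
      map_smul' := fun _ _ => rfl }
  have hQa : ∀ x a, (Q x).1 a = x.1 (ρ a) := fun _ _ => rfl
  have hQn : ∀ x, ‖Q x‖ ≤ ‖x‖ := fun x => by
    refine (pi_norm_le_iff_of_nonneg (norm_nonneg _)).mpr fun a => ?_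
    exact norm_le_pi_norm x.1 (ρ a)
  have hQR : ∀ x a b, R a b → (Q x).1 a = (Q x).1 b := fun x a b h => by
    rw [hQa, hQa, hρe a b h]
  obtain ⟨hf, F, hF1, hF2, hF3⟩ := H.adm
  have hfQ : ∀ x, Q (f (Q x)) = f (Q x) := by
    intro x
    apply Subtype.ext
    funext a
    rw [hQa]
    obtain ⟨β, hβ⟩ := hbal a (ρ a) (hρ a)
    rw [hF3, hF3, hF2 a (ρ a) β, ← hQR x a (ρ a) (hρ a)]
    congr 2
    funext e
    exact (hQR x _ _ (hβ e)).symm
  obtain ⟨M, hM0, hM⟩ := exists_norm_bound H.orb.continuous H.orb.per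
  obtain ⟨L, hL0, hL⟩ := exists_lip hf M
  let QL : StateSpace N P →L[ℝ] StateSpace N P := Q.toContinuousLinearMap
  have hode : ∀ r, HasDerivAt (fun r => y (r + s₀) - Q (y (r + s₀)))
      (T • (f (y (r + s₀)) - Q (f (y (r + s₀))))) r := by
    intro r
    have h1 := (H.orb.ode (r + s₀)).comp_add_const r s₀
    have h2 : HasDerivAt (fun r => Q (y (r + s₀))) (Q (T • f (y (r + s₀)))) r :=
      QL.hasFDerivAt.comp_hasDerivAt r h1
    refine (h1.fun_sub h2).congr_deriv ?_
    rw [map_smul, smul_sub]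
  have hgr := Pool.Agent.W795.gronwall_two (δ := 0) (K := 2 * L * T) (ε := 0) (R := |s - s₀|)
    hode (by
      rw [zero_add]
      have : y s₀ - Q (y s₀) = 0 := by
        apply Subtype.ext
        funext c
        change (y s₀).1 c - (y s₀).1 (ρ c) = 0
        rw [sub_eq_zero]
        exact (H.R_iff c (ρ c)).mp (hρ c)
      rw [this, norm_zero]) (fun r _ => by
      rw [add_zero]
      set x := y (r + s₀) with hx
      have e1 : f x - Q (f x) = (f x - f (Q x)) - Q (f x - f (Q x)) := by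
        rw [map_sub, hfQ]; abel
      have e2 : ‖f x - f (Q x)‖ ≤ L * ‖x - Q x‖ :=
        hL _ _ (hM _) ((hQn _).trans (hM _))
      have e3 : ‖Q (f x - f (Q x))‖ ≤ L * ‖x - Q x‖ := (hQn _).trans e2
      rw [norm_smul, Real.norm_of_nonneg H.orb.pos.le, e1]
      have e4 := norm_sub_le (f x - f (Q x)) (Q (f x - f (Q x)))
      have hT := H.orb.pos
      calc T * ‖f x - f (Q x) - Q (f x - f (Q x))‖ ≤ T * (L * ‖x - Q x‖ + L * ‖x - Q x‖) :=
            mul_le_mul_of_nonneg_left (by linarith) hT.le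
        _ = 2 * L * T * ‖x - Q x‖ := by ring) (s - s₀) le_rfl
  rw [gronwallBound_ε0_δ0, sub_add_cancel] at hgr
  have h0 : y s - Q (y s) = 0 := norm_le_zero_iff.mp hgr
  have h1 : ∀ c, (y s).1 c = (y s).1 (ρ c) := fun c => by
    have h2 : (y s - Q (y s)).1 c = 0 := by rw [h0]; rfl
    exact sub_eq_zero.mp h2
  rw [h1 a, h1 b, hρe a b hab]

end CoreSec

/-! ### Existence of the core situation by minimisation -/

/-- The competitors near a given orbit. -/
def InN (f₀ : StateSpace N P → StateSpace N P) (y₀ : ℝ → StateSpace N P) (T₀ ε : ℝ)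
    (f : StateSpace N P → StateSpace N P) (y : ℝ → StateSpace N P) (T : ℝ) : Prop :=
  Admissible N P f ∧
  (∃ e : ℝ, e < ε ∧ ∀ z, ‖f z - f₀ z‖ ≤ e ∧ ‖fderiv ℝ f z - fderiv ℝ f₀ z‖ ≤ e) ∧
  Orb f y T ∧ Nondeg f y T ∧ ∃ e : ℝ, e < ε ∧ |T - T₀| ≤ e ∧ ∀ s, ‖y s - y₀ s‖ ≤ e

/-- Number of coincidences plus number of resting nodes. -/
noncomputable def cnt (f : StateSpace N P → StateSpace N P) (z : StateSpace N P) : ℕ :=
  {p : N.Node × N.Node | z.1 p.1 = z.1 p.2}.ncard + {a : N.Node | (f z).1 a = 0}.ncard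

lemma close_add {V : Type*} [NormedAddCommGroup V] [NormedSpace ℝ V] {f g f₀ : V → V}
    (hf : ContDiff ℝ 1 f) (hg : ContDiff ℝ 1 g) {e B l d : ℝ} (hl0 : 0 < l) {z : V}
    (hle : l * B ≤ d) (hc : ‖f z - f₀ z‖ ≤ e ∧ ‖fderiv ℝ f z - fderiv ℝ f₀ z‖ ≤ e)
    (hB : ‖g z‖ ≤ B ∧ ‖fderiv ℝ g z‖ ≤ B) :
    ‖(fun z => f z + l • g z) z - f₀ z‖ ≤ e + d ∧
      ‖fderiv ℝ (fun z => f z + l • g z) z - fderiv ℝ f₀ z‖ ≤ e + d := by
  have hfd : fderiv ℝ (fun z => f z + l • g z) z = fderiv ℝ f z + l • fderiv ℝ g z :=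
    (((hf.differentiable one_ne_zero) z).hasFDerivAt.fun_add
        (((hg.differentiable one_ne_zero) z).hasFDerivAt.fun_const_smul l)).fderiv
  constructor
  · have h1 : (fun z => f z + l • g z) z - f₀ z = (f z - f₀ z) + l • g z := by
      simp only; abel
    rw [h1]
    refine (norm_add_le _ _).trans (add_le_add hc.1 ?_)
    rw [norm_smul, Real.norm_of_nonneg hl0.le]
    exact (mul_le_mul_of_nonneg_left hB.1 hl0.le).trans hle
  · rw [hfd]
    have h1 : fderiv ℝ f z + l • fderiv ℝ g z - fderiv ℝ f₀ z =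
        (fderiv ℝ f z - fderiv ℝ f₀ z) + l • fderiv ℝ g z := by abel
    rw [h1]
    refine (norm_add_le _ _).trans (add_le_add hc.2 ?_)
    rw [norm_smul, Real.norm_of_nonneg hl0.le]
    exact (mul_le_mul_of_nonneg_left hB.2 hl0.le).trans hle

lemma exists_core {f₀ : StateSpace N P → StateSpace N P} {y₀ : ℝ → StateSpace N P} {T₀ ε : ℝ}
    (hε : 0 < ε) (hadm : Admissible N P f₀) (horb : Orb f₀ y₀ T₀) (hnd : Nondeg f₀ y₀ T₀) :
    ∃ (f : StateSpace N P → StateSpace N P) (y : ℝ → StateSpace N P) (T s₀ ρ₀ C : ℝ)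
      (R : N.Node → N.Node → Prop) (Z : N.Node → Prop),
      InN f₀ y₀ T₀ ε f y T ∧ Core f y T s₀ ρ₀ C R Z := by
  classical
  have hex : ∃ n : ℕ, ∃ (f : StateSpace N P → StateSpace N P) (y : ℝ → StateSpace N P) (T s : ℝ),
      InN f₀ y₀ T₀ ε f y T ∧ cnt f (y s) = n :=
    ⟨_, f₀, y₀, T₀, 0, ⟨hadm, ⟨0, hε, fun z =>
      ⟨((congrArg norm (sub_self _)).trans norm_zero).le, by
        have h0 : fderiv ℝ f₀ z - fderiv ℝ f₀ z = 0 := sub_self (fderiv ℝ f₀ z)
        rw [h0]
        exact (norm_zero (E := StateSpace N P →L[ℝ] StateSpace N P)).le⟩⟩, horb, hnd, 0, hε,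
      by simp, fun s => by simp⟩, rfl⟩
  obtain ⟨f, y, T, s₀, hin, hcnt⟩ := Nat.find_spec hex
  have hmin : ∀ (f' : StateSpace N P → StateSpace N P) (y' : ℝ → StateSpace N P) (T' s : ℝ),
      InN f₀ y₀ T₀ ε f' y' T' → cnt f (y s₀) ≤ cnt f' (y' s) := fun f' y' T' s h => by
    rw [hcnt]
    exact Nat.find_min' hex ⟨f', y', T', s, h, rfl⟩
  have hin' := hin
  obtain ⟨hfadm, ⟨e, he, hclose⟩, ho, hn, e2, he2, hT2, hy2⟩ := hin
  -- equality from inclusion
  have heq : ∀ (f' : StateSpace N P → StateSpace N P) (y' : ℝ → StateSpace N P) (T' s : ℝ),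
      InN f₀ y₀ T₀ ε f' y' T' →
      (∀ a b, (y' s).1 a = (y' s).1 b → (y s₀).1 a = (y s₀).1 b) →
      (∀ a, (f' (y' s)).1 a = 0 → (f (y s₀)).1 a = 0) →
      (∀ a b, (y' s).1 a = (y' s).1 b ↔ (y s₀).1 a = (y s₀).1 b) ∧
      (∀ a, (f' (y' s)).1 a = 0 ↔ (f (y s₀)).1 a = 0) := by
    intro f' y' T' s h h1 h2
    have h3 := hmin f' y' T' s h
    have s1 : {p : N.Node × N.Node | (y' s).1 p.1 = (y' s).1 p.2} ⊆
        {p : N.Node × N.Node | (y s₀).1 p.1 = (y s₀).1 p.2} := fun p hp => h1 _ _ hp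
    have s2 : {a : N.Node | (f' (y' s)).1 a = 0} ⊆ {a : N.Node | (f (y s₀)).1 a = 0} :=
      fun a ha => h2 a ha
    have n1 := Set.ncard_le_ncard s1 (Set.toFinite _)
    have n2 := Set.ncard_le_ncard s2 (Set.toFinite _)
    unfold cnt at h3
    have t1 := Set.eq_of_subset_of_ncard_le s1 (by omega) (Set.toFinite _)
    have t2 := Set.eq_of_subset_of_ncard_le s2 (by omega) (Set.toFinite _)
    exact ⟨fun a b => ⟨h1 a b, fun h => by
      have : (a, b) ∈ {p : N.Node × N.Node | (y s₀).1 p.1 = (y s₀).1 p.2} := h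
      rw [← t1] at this
      exact this⟩, fun a => ⟨h2 a, fun h => by
      have : a ∈ {a : N.Node | (f (y s₀)).1 a = 0} := h
      rw [← t2] at this
      exact this⟩⟩
  -- separation constant
  obtain ⟨ω, hω, hω1, hω2⟩ : ∃ ω : ℝ, 0 < ω ∧
      (∀ a b, (y s₀).1 a ≠ (y s₀).1 b → 2 * ω < ‖(y s₀).1 a - (y s₀).1 b‖) ∧
      (∀ a, (f (y s₀)).1 a ≠ 0 → 2 * ω < ‖(f (y s₀)).1 a‖) := by
    have h1 : ∀ᶠ ω : ℝ in 𝓝[>] 0,
        ∀ a b, (y s₀).1 a ≠ (y s₀).1 b → 2 * ω < ‖(y s₀).1 a - (y s₀).1 b‖ := by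
      refine eventually_all.mpr fun a => eventually_all.mpr fun b => ?_
      by_cases h : (y s₀).1 a = (y s₀).1 b
      · exact Eventually.of_forall fun _ h' => absurd h h'
      · have hpos : 0 < ‖(y s₀).1 a - (y s₀).1 b‖ / 2 := by
          have := norm_pos_iff.mpr (sub_ne_zero.mpr h); positivity
        have h2 : ∀ᶠ ω : ℝ in 𝓝[>] 0, ω < ‖(y s₀).1 a - (y s₀).1 b‖ / 2 :=
          mem_nhdsWithin_of_mem_nhds (Iio_mem_nhds hpos)
        exact h2.mono fun δ hδ _ => by linarith
    have h3 : ∀ᶠ ω : ℝ in 𝓝[>] 0, ∀ a, (f (y s₀)).1 a ≠ 0 → 2 * ω < ‖(f (y s₀)).1 a‖ := by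
      refine eventually_all.mpr fun a => ?_
      by_cases h : (f (y s₀)).1 a = 0
      · exact Eventually.of_forall fun _ h' => absurd h h'
      · have hpos : 0 < ‖(f (y s₀)).1 a‖ / 2 := by
          have := norm_pos_iff.mpr h; positivity
        have h2 : ∀ᶠ ω : ℝ in 𝓝[>] 0, ω < ‖(f (y s₀)).1 a‖ / 2 :=
          mem_nhdsWithin_of_mem_nhds (Iio_mem_nhds hpos)
        exact h2.mono fun δ hδ _ => by linarith
    obtain ⟨ω, ⟨h4, h5⟩, h6⟩ := ((h1.and h3).and self_mem_nhdsWithin).exists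
    exact ⟨ω, h6, h4, h5⟩
  obtain ⟨ω', hω', hω''⟩ := Metric.continuous_iff.mp hfadm.1.continuous (y s₀) ω hω
  set κ := min ω ω' with hκ
  have hκ0 : 0 < κ := lt_min hω hω'
  obtain ⟨ρ₀, hρ₀, hρ₀'⟩ := Metric.continuous_iff.mp ho.continuous s₀ (κ / 2) (by positivity)
  -- coincidences near the minimiser
  have hnear : ∀ w : StateSpace N P, ‖w - y s₀‖ < κ →
      (∀ a b, w.1 a = w.1 b → (y s₀).1 a = (y s₀).1 b) ∧ ‖f w - f (y s₀)‖ < ω := by
    intro w hw
    constructor
    · intro a b hab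
      by_contra hne
      have h1 := hω1 a b hne
      have h2 : ‖w.1 a - (y s₀).1 a‖ ≤ ‖w - y s₀‖ := norm_le_pi_norm (w - y s₀).1 a
      have h3 : ‖w.1 b - (y s₀).1 b‖ ≤ ‖w - y s₀‖ := norm_le_pi_norm (w - y s₀).1 b
      have h4 : (y s₀).1 a - (y s₀).1 b = (w.1 b - (y s₀).1 b) - (w.1 a - (y s₀).1 a) := by
        rw [hab]; abel
      rw [h4] at h1
      have h5 := norm_sub_le (w.1 b - (y s₀).1 b) (w.1 a - (y s₀).1 a)
      have h6 : κ ≤ ω := min_le_left _ _
      linarith
    · have := hω'' w (by rw [dist_eq_norm]; exact hw.trans_le (min_le_right _ _))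
      rwa [dist_eq_norm] at this
  obtain ⟨C, hC, hpers⟩ := persist hfadm.1 ho hn
  refine ⟨f, y, T, s₀, ρ₀, C, fun a b => (y s₀).1 a = (y s₀).1 b,
    fun a => (f (y s₀)).1 a = 0, hin', hfadm, ho, hC, hρ₀, ?_, ?_, ?_⟩
  · intro s hs
    have h1 := hρ₀' s (by rwa [Real.dist_eq])
    rw [dist_eq_norm] at h1
    have h2 := hnear (y s) (by linarith)
    exact (heq f y T s hin' h2.1 (fun a ha => by
      by_contra hne
      have h3 := hω2 a hne
      have h4 : ‖(f (y s)).1 a - (f (y s₀)).1 a‖ ≤ ‖f (y s) - f (y s₀)‖ :=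
        norm_le_pi_norm (f (y s) - f (y s₀)).1 a
      rw [ha, zero_sub, norm_neg] at h4
      linarith [h2.2])).1
  · intro s hs
    have h1 := hρ₀' s (by rwa [Real.dist_eq])
    rw [dist_eq_norm] at h1
    have h2 := hnear (y s) (by linarith)
    exact (heq f y T s hin' h2.1 (fun a ha => by
      by_contra hne
      have h3 := hω2 a hne
      have h4 : ‖(f (y s)).1 a - (f (y s₀)).1 a‖ ≤ ‖f (y s) - f (y s₀)‖ :=
        norm_le_pi_norm (f (y s) - f (y s₀)).1 a
      rw [ha, zero_sub, norm_neg] at h4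
      linarith [h2.2])).2
  · rintro g hg ⟨B, hB⟩ ρ hρ
    have hB0 : 0 ≤ B := (norm_nonneg _).trans (hB 0).1
    have hee : 0 < ε - e := by linarith
    have hee2 : 0 < ε - e2 := by linarith
    obtain ⟨l₀, hl₀, hpl⟩ := hpers g hg.1 B hB (min ρ (min (κ / 2) ((ε - e2) / 2)))
      (by positivity)
    obtain ⟨l, hl0, hll, hlω, hle⟩ : ∃ l : ℝ, 0 < l ∧ l < l₀ ∧ l * B < ω ∧ l * B ≤ (ε - e) / 2 := by
      refine ⟨min (l₀ / 2) (min (ω / (2 * (B + 1))) ((ε - e) / (2 * (B + 1)))), by positivity,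
        (min_le_left _ _).trans_lt (by linarith), ?_, ?_⟩
      · have h1 : min (l₀ / 2) (min (ω / (2 * (B + 1))) ((ε - e) / (2 * (B + 1)))) ≤
            ω / (2 * (B + 1)) := (min_le_right _ _).trans (min_le_left _ _)
        set m := min (l₀ / 2) (min (ω / (2 * (B + 1))) ((ε - e) / (2 * (B + 1)))) with hm
        have hm0 : 0 < m := by positivity
        rw [le_div_iff₀ (by positivity)] at h1
        nlinarith
      · have h1 : min (l₀ / 2) (min (ω / (2 * (B + 1))) ((ε - e) / (2 * (B + 1)))) ≤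
            (ε - e) / (2 * (B + 1)) := (min_le_right _ _).trans (min_le_right _ _)
        set m := min (l₀ / 2) (min (ω / (2 * (B + 1))) ((ε - e) / (2 * (B + 1)))) with hm
        have hm0 : 0 < m := by positivity
        rw [le_div_iff₀ (by positivity)] at h1
        nlinarith
    obtain ⟨y', T', ho', hn', hT', hy', hyC⟩ := hpl l (by rwa [abs_of_pos hl0])
    have hadm' : Admissible N P (fun z => f z + l • g z) := by
      obtain ⟨hf1, F, hF1, hF2, hF3⟩ := hfadm
      obtain ⟨hg1, G, hG1, hG2, hG3⟩ := hg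
      refine ⟨hf1.add (hg1.const_smul l), fun c p => F c p + l • G c p,
        fun c => (hF1 c).add ((hG1 c).const_smul l), fun c d β u w => ?_, fun x c => ?_⟩
      · change F d (u, w) + l • G d (u, w) = F c (u, fun e => w (β.1 e)) +
          l • G c (u, fun e => w (β.1 e))
        rw [hF2 c d β, hG2 c d β]
      · change (f x).1 c + l • (g x).1 c = _
        rw [hF3, hG3]
    have hinN : InN f₀ y₀ T₀ ε (fun z => f z + l • g z) y' T' := by
      refine ⟨hadm', ⟨e + (ε - e) / 2, by linarith, fun z =>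
        close_add hfadm.1 hg.1 hl0 hle (hclose z) (hB z)⟩, ho', hn',
        e2 + (ε - e2) / 2, by linarith, ?_, fun s => ?_⟩
      · have h1 : |T' - T| < (ε - e2) / 2 :=
          hT'.trans_le ((min_le_right _ _).trans (min_le_right _ _))
        have h2 : T' - T₀ = (T' - T) + (T - T₀) := by ring
        rw [h2]
        refine (abs_add_le _ _).trans ?_
        linarith
      · have h1 : ‖y' s - y s‖ < (ε - e2) / 2 :=
          (hy' s).trans_le ((min_le_right _ _).trans (min_le_right _ _))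
        have h2 : y' s - y₀ s = (y' s - y s) + (y s - y₀ s) := by abel
        rw [h2]
        refine (norm_add_le _ _).trans ?_
        linarith [hy2 s]
    refine ⟨l, hl0.ne', y', T', ho', hyC, fun s => (hy' s).trans_le (min_le_left _ _),
      fun s hs => ?_⟩
    have h1 := hρ₀' s (by rwa [Real.dist_eq])
    rw [dist_eq_norm] at h1
    have h2 : ‖y' s - y s‖ < κ / 2 :=
      (hy' s).trans_le ((min_le_right _ _).trans (min_le_left _ _))
    have h3 : ‖y' s - y s₀‖ < κ := by
      have h4 : y' s - y s₀ = (y' s - y s) + (y s - y s₀) := by abel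
      rw [h4]
      refine (norm_add_le _ _).trans_lt ?_
      linarith
    have h5 := hnear (y' s) h3
    exact heq (fun z => f z + l • g z) y' T' s hinN h5.1 (fun a ha => by
      by_contra hne
      have h6 := hω2 a hne
      have h7 : ‖(f (y' s)).1 a - (f (y s₀)).1 a‖ ≤ ‖f (y' s) - f (y s₀)‖ :=
        norm_le_pi_norm (f (y' s) - f (y s₀)).1 a
      have h8 : (f (y' s)).1 a = -(l • (g (y' s)).1 a) := eq_neg_of_add_eq_zero_left ha
      have h9 : ‖(f (y' s)).1 a‖ ≤ l * B := by
        rw [h8, norm_neg, norm_smul, Real.norm_of_nonneg hl0.le]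
        refine mul_le_mul_of_nonneg_left ?_ hl0.le
        exact (norm_le_pi_norm (g (y' s)).1 a).trans (hB _).1
      have h10 : ‖(f (y s₀)).1 a‖ ≤ ‖(f (y' s)).1 a‖ + ‖(f (y' s)).1 a - (f (y s₀)).1 a‖ := by
        have := norm_sub_norm_le ((f (y s₀)).1 a) ((f (y' s)).1 a)
        rw [norm_sub_rev] at this
        linarith
      linarith [h5.2])

/-! ### Assembly -/

/-- Normalised time. -/
lemma orb_of_periodic {f : StateSpace N P → StateSpace N P} {x : ℝ → StateSpace N P} {T : ℝ}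
    (hx : PeriodicOrbit f x T) : Orb f (fun s => x (T * s)) T where
  pos := hx.pos
  ode := fun s => by
    have h1 : HasDerivAt (fun s : ℝ => T * s) T s := by
      simpa using (hasDerivAt_id s).const_mul T
    exact (hx.ode (T * s)).scomp s h1
  per := fun s => by
    rw [mul_add, mul_one]; exact hx.per _

lemma floq_of_hyperbolic {f : StateSpace N P → StateSpace N P} {x : ℝ → StateSpace N P} {T : ℝ}
    (hf : ContDiff ℝ 1 f) (hx : PeriodicOrbit f x T) (hyp : Hyperbolic f x T) :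
    Nondeg f (fun s => x (T * s)) T := by
  obtain ⟨t₁, ht₁⟩ := hx.nonconst
  have ho := orb_of_periodic hx
  have hne : f (x (T * 0)) ≠ 0 := by
    refine ho.f_ne hf (s₁ := t₁ / T) ?_
    have e : T * (t₁ / T) = t₁ := by have := hx.pos.ne'; field_simp
    simp only [e, mul_zero]
    exact ht₁
  obtain ⟨M, hM, hroot, _⟩ := hyp
  refine nondeg_of_simple hf ho hne M (fun v => ?_) hroot
  obtain ⟨ξ, h0, hξ, h1⟩ := hM v
  refine ⟨fun s => ξ (T * s), by simpa using h0, fun s => ?_, by simpa using h1⟩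
  have h2 : HasDerivAt (fun s : ℝ => T * s) T s := by
    simpa using (hasDerivAt_id s).const_mul T
  exact (hξ (T * s)).scomp s h2

/-- Back to the original time. -/
lemma periodic_of_orb {f : StateSpace N P → StateSpace N P} {y : ℝ → StateSpace N P} {T s₁ : ℝ}
    (hy : Orb f y T) (hs : y s₁ ≠ y 0) : PeriodicOrbit f (fun t => y (t / T)) T where
  pos := hy.pos
  ode := fun t => by
    have h1 : HasDerivAt (fun t : ℝ => t / T) (1 / T) t := (hasDerivAt_id t).div_const T
    have h2 := (hy.ode (t / T)).scomp t h1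
    refine h2.congr_deriv ?_
    rw [smul_smul, one_div, inv_mul_cancel₀ hy.pos.ne', one_smul]
  per := fun t => by
    have e : (t + T) / T = t / T + 1 := by have := hy.pos.ne'; field_simp
    rw [e, hy.per]
  nonconst := ⟨T * s₁, by
    have e : T * s₁ / T = s₁ := by have := hy.pos.ne'; field_simp
    simp only [e, zero_div]
    exact hs⟩

/-- **The rigid synchrony conjecture.** For every network, every admissible `C¹` vector field and
every hyperbolic periodic orbit, every rigid synchrony pattern is balanced. -/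
theorem result (N : Network) {E : Type} [NormedAddCommGroup E] [NormedSpace ℝ E]
    [FiniteDimensional ℝ E] (P : N.NodeType → Submodule ℝ E) (hP : ∀ τ, P τ ≠ ⊥)
    {f : StateSpace N P → StateSpace N P} {x : ℝ → StateSpace N P} {T : ℝ}
    (hf : Admissible N P f) (hx : PeriodicOrbit f x T) (hyp : Hyperbolic f x T)
    (hr : Rigid N P f x T) : Balanced N (Sync N P x) := by
  classical
  have hT := hx.pos
  set y : ℝ → StateSpace N P := fun s => x (T * s) with hy
  have ho : Orb f y T := orb_of_periodic hx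
  have hnd : Nondeg f y T := floq_of_hyperbolic hf.1 hx hyp
  have hxy : ∀ t, x t = y (t / T) := fun t => by
    have e : T * (t / T) = t := by have := hx.pos.ne'; field_simp
    simp only [hy, e]
  obtain ⟨εr, hεr, hrig⟩ := hr
  obtain ⟨B, hB0, hB⟩ := exists_norm_bound (hf.1.continuous.comp ho.continuous)
    (fun s => by simp only [Function.comp_apply, ho.per])
  obtain ⟨t₁, ht₁⟩ := hx.nonconst
  have hy1 : y (t₁ / T) ≠ y 0 := by
    rw [← hxy]
    have : y 0 = x 0 := by simp [hy]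
    rwa [this]
  -- the choice of the size of the perturbation
  obtain ⟨ε, ⟨hε1, hε2, hε3, hε4⟩, hε⟩ : ∃ ε : ℝ, (ε ≤ T / 2 ∧ ε * (1 + 2 * B) < εr ∧
      2 * ε < ‖y (t₁ / T) - y 0‖ ∧
      ∀ a b, ¬ Sync N P x a b → ∃ s, 2 * ε < ‖(y s).1 a - (y s).1 b‖) ∧ 0 < ε := by
    have e1 : ∀ᶠ ε : ℝ in 𝓝[>] 0, ε ≤ T / 2 :=
      mem_nhdsWithin_of_mem_nhds (Iic_mem_nhds (by positivity))
    have e2 : ∀ᶠ ε : ℝ in 𝓝[>] 0, ε * (1 + 2 * B) < εr := by
      have h1 : ∀ᶠ ε : ℝ in 𝓝[>] 0, ε < εr / (1 + 2 * B) :=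
        mem_nhdsWithin_of_mem_nhds (Iio_mem_nhds (by positivity))
      exact h1.mono fun ε h => by rwa [lt_div_iff₀ (by positivity)] at h
    have e3 : ∀ᶠ ε : ℝ in 𝓝[>] 0, 2 * ε < ‖y (t₁ / T) - y 0‖ := by
      have hpos : 0 < ‖y (t₁ / T) - y 0‖ / 2 := by
        have := norm_pos_iff.mpr (sub_ne_zero.mpr hy1); positivity
      have h1 : ∀ᶠ ε : ℝ in 𝓝[>] 0, ε < ‖y (t₁ / T) - y 0‖ / 2 :=
        mem_nhdsWithin_of_mem_nhds (Iio_mem_nhds hpos)
      exact h1.mono fun ε h => by linarith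
    have e4 : ∀ᶠ ε : ℝ in 𝓝[>] 0,
        ∀ a b, ¬ Sync N P x a b → ∃ s, 2 * ε < ‖(y s).1 a - (y s).1 b‖ := by
      refine eventually_all.mpr fun a => eventually_all.mpr fun b => ?_
      by_cases h : Sync N P x a b
      · exact Eventually.of_forall fun _ h' => absurd h h'
      · have h' := h
        unfold Sync at h'
        push Not at h'
        obtain ⟨t, ht⟩ := h'
        rw [hxy] at ht
        have hpos : 0 < ‖(y (t / T)).1 a - (y (t / T)).1 b‖ / 2 := by
          have := norm_pos_iff.mpr (sub_ne_zero.mpr ht); positivity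
        have h2 : ∀ᶠ ε : ℝ in 𝓝[>] 0, ε < ‖(y (t / T)).1 a - (y (t / T)).1 b‖ / 2 :=
          mem_nhdsWithin_of_mem_nhds (Iio_mem_nhds hpos)
        exact h2.mono fun ε hε _ => ⟨t / T, by linarith⟩
    exact ((((e1.and (e2.and (e3.and e4)))).and self_mem_nhdsWithin)).exists
  obtain ⟨f', y', T', s₀, ρ₀, C, R, Z, ⟨hadm, ⟨e, he, hclose⟩, ho', -, e2, he2, hT2, hy2⟩, H⟩ :=
    exists_core hε hf ho hnd
  have he20 : 0 ≤ e2 := (abs_nonneg _).trans hT2
  have hT' := ho'.pos
  have hεεr : ε < εr := by nlinarith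
  -- the perturbed orbit in original time
  have hne' : y' (t₁ / T) ≠ y' 0 := by
    intro hh
    have h1 : y (t₁ / T) - y 0 = (y' 0 - y 0) - (y' (t₁ / T) - y (t₁ / T)) := by
      rw [hh]; abel
    rw [h1] at hε3
    have h2 := norm_sub_le (y' 0 - y 0) (y' (t₁ / T) - y (t₁ / T))
    linarith [hy2 0, hy2 (t₁ / T)]
  have hper := periodic_of_orb ho' hne'
  have hlip : ∀ a b : ℝ, ‖y a - y b‖ ≤ T * B * |a - b| := by
    intro a b
    have := convex_univ.norm_image_sub_le_of_norm_hasDerivWithin_le (C := T * B)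
      (fun s _ => (ho.ode s).hasDerivWithinAt) (fun s _ => by
        rw [norm_smul, Real.norm_of_nonneg hT.le]
        exact mul_le_mul_of_nonneg_left (hB s) hT.le) (mem_univ b) (mem_univ a)
    rwa [Real.norm_eq_abs] at this
  have hsync : ∀ c d, Sync N P x c d → R c d := by
    intro c d hcd
    have h1 := hrig f' hadm (fun z => ⟨lt_of_le_of_lt (hclose z).1 (he.trans hεεr),
      lt_of_le_of_lt (hclose z).2 (he.trans hεεr)⟩) _ T' hper
      ⟨lt_of_le_of_lt hT2 (he2.trans hεεr), fun t ht => by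
        rw [hxy t]
        have h2 : ‖y' (t / T') - y (t / T')‖ ≤ e2 := hy2 _
        have h3 := hlip (t / T') (t / T)
        have h4 : |t / T' - t / T| ≤ 2 * e2 / T := by
          have h5 : t / T' - t / T = t / T * ((T - T') / T') := by
            have := hT.ne'
            have := hT'.ne'
            field_simp
          have h6 : T / 2 ≤ T' := by
            have := (abs_le.mp hT2).1
            linarith
          rw [h5, abs_mul, abs_div, abs_of_pos hT, abs_div, abs_of_pos hT', abs_of_nonneg ht.1,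
            abs_sub_comm]
          calc t / T * (|T' - T| / T') ≤ 1 * (e2 / (T / 2)) := by
                refine mul_le_mul ?_ ?_ (by positivity) zero_le_one
                · rw [div_le_one hT]; exact ht.2
                · exact div_le_div₀ he20 hT2 (by positivity) h6
            _ = 2 * e2 / T := by field_simp
        have h7 : y' (t / T') - y (t / T) = (y' (t / T') - y (t / T')) +
            (y (t / T') - y (t / T)) := by abel
        rw [h7]
        refine lt_of_le_of_lt (norm_add_le _ _) ?_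
        have h8 : T * B * |t / T' - t / T| ≤ T * B * (2 * e2 / T) :=
          mul_le_mul_of_nonneg_left h4 (by positivity)
        have h9 : T * B * (2 * e2 / T) = 2 * B * e2 := by
          have := hT.ne'
          field_simp
        have h10 : e2 * (1 + 2 * B) ≤ ε * (1 + 2 * B) :=
          mul_le_mul_of_nonneg_right he2.le (by positivity)
        nlinarith⟩ c d hcd
    rw [H.R_iff]
    have h2 := h1 (T' * s₀)
    have e : T' * s₀ / T' = s₀ := by have := hT'.ne'; field_simp
    simp only [e] at h2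
    exact h2
  have hsync' : ∀ c d, R c d → Sync N P x c d := by
    intro c d hcd
    by_contra hns
    obtain ⟨s, hs⟩ := hε4 c d hns
    have h1 := H.sync hP hcd s
    have h2 : ‖(y' s).1 c - (y s).1 c‖ ≤ ‖y' s - y s‖ := norm_le_pi_norm (y' s - y s).1 c
    have h3 : ‖(y' s).1 d - (y s).1 d‖ ≤ ‖y' s - y s‖ := norm_le_pi_norm (y' s - y s).1 d
    have h4 : (y s).1 c - (y s).1 d = ((y' s).1 d - (y s).1 d) - ((y' s).1 c - (y s).1 c) := by
      rw [h1]; abel
    rw [h4] at hs
    have h5 := norm_sub_le ((y' s).1 d - (y s).1 d) ((y' s).1 c - (y s).1 c)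
    linarith [hy2 s]
  intro c d hcd
  obtain ⟨β, hβ⟩ := H.balanced hP c d (hsync c d hcd)
  exact ⟨β, fun e => hsync' _ _ (hβ e)⟩

end Pool.Agent.Results.MP_e1010f_an.RigidSynchrony
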